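import Pool.Agent.W_MP_55e385_h66.Bfs

set_option autoImplicit false

/-!
# The growth rate, and the upper bound for weighted Cheeger constants
-/

namespace Pool.Agent.W_MP_55e385_h66

variable {V : Type} (G : SimpleGraph V)

lemma ball_ncard (hG : G.Connected) (ht : ∀ u v : V, ∃ φ : G ≃g G, φ u = v) (x o : V) (n : ℕ) :
    {y : V | G.dist x y ≤ n}.ncard = {y : V | G.dist o y ≤ n}.ncard := by
  obtain ⟨φ, hφ⟩ := ht x o
  have : {y : V | G.dist o y ≤ n} = φ '' {y : V | G.dist x y ≤ n} := by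
    ext y
    constructor
    · intro hy
      refine ⟨φ.symm y, ?_, φ.apply_symm_apply y⟩
      show G.dist x (φ.symm y) ≤ n
      rw [← dist_iso G φ hG, hφ, φ.apply_symm_apply]
      exact hy
    · rintro ⟨z, hz, rfl⟩
      show G.dist o (φ z) ≤ n
      rw [← hφ, dist_iso G φ hG]
      exact hz
  rw [this, Set.ncard_image_of_injective _ φ.injective]

lemma ball_mul (hG : G.Connected) (hf : ∀ v, (G.neighborSet v).Finite)
    (ht : ∀ u v : V, ∃ φ : G ≃g G, φ u = v) (o : V) (m n : ℕ) :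
    {y : V | G.dist o y ≤ m + n}.ncard
      ≤ {y : V | G.dist o y ≤ m}.ncard * {y : V | G.dist o y ≤ n}.ncard := by
  classical
  set F := (ball_finite G hG hf o m).toFinset with hF
  have h1 : {y : V | G.dist o y ≤ m + n} ⊆ ⋃ z ∈ F, {y : V | G.dist z y ≤ n} := by
    intro y hy
    have hy' : G.dist o y ≤ m + n := hy
    simp only [Set.mem_iUnion]
    -- a point at distance at most `m` from `o` and at most `n` from `y`
    obtain ⟨k, hk⟩ : ∃ k, k = G.dist o y - m := ⟨_, rfl⟩
    refine ⟨(par G hG o)^[k] y, ?_, ?_⟩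
    · rw [hF, Set.Finite.mem_toFinset]
      show G.dist o _ ≤ m
      have := par_iter_dist G hG o k y (by omega)
      omega
    · show G.dist _ y ≤ n
      have := dist_iter_le G hG o k y
      omega
  have h2 := Set.ncard_le_ncard h1 (F.finite_toSet.biUnion
    (fun z _ => ball_finite G hG hf z n))
  refine h2.trans ((Finset.set_ncard_biUnion_le _ _).trans ?_)
  have h3 : ∀ z ∈ F, {y : V | G.dist z y ≤ n}.ncard ≤ {y : V | G.dist o y ≤ n}.ncard :=
    fun z _ => (ball_ncard G hG ht z o n).le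
  refine (Finset.sum_le_card_nsmul _ _ _ h3).trans ?_
  rw [smul_eq_mul, hF, Set.ncard_eq_toFinset_card _ (ball_finite G hG hf o m)]

lemma ball_pos (hG : G.Connected) (hf : ∀ v, (G.neighborSet v).Finite) (o : V) (n : ℕ) :
    0 < {y : V | G.dist o y ≤ n}.ncard := by
  rw [Set.ncard_pos (ball_finite G hG hf o n)]
  exact ⟨o, by show G.dist o o ≤ n; rw [SimpleGraph.dist_self]; exact Nat.zero_le n⟩

/-- The growth rate exists and is a lower bound. -/
theorem growth (hG : G.Connected) (hf : ∀ v, (G.neighborSet v).Finite)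
    (ht : ∀ u v : V, ∃ φ : G ≃g G, φ u = v) (o : V) (c : ℝ) (hc : 1 < c)
    (hgr : ∀ n : ℕ, c ^ n ≤ (({w : V | G.dist o w ≤ n}.ncard : ℕ) : ℝ)) :
    ∃ g : ℝ, c ≤ g ∧
      Filter.Tendsto (fun n : ℕ => Real.log (({w : V | G.dist o w ≤ n}.ncard : ℕ) : ℝ) / n)
        Filter.atTop (nhds (Real.log g)) ∧
      ∀ n : ℕ, g ^ n ≤ (({w : V | G.dist o w ≤ n}.ncard : ℕ) : ℝ) := by
  set b : ℕ → ℝ := fun n => (({w : V | G.dist o w ≤ n}.ncard : ℕ) : ℝ) with hb
  have hb1 : ∀ n, 1 ≤ b n := by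
    intro n
    have := ball_pos G hG hf o n
    show (1 : ℝ) ≤ (({w : V | G.dist o w ≤ n}.ncard : ℕ) : ℝ)
    exact_mod_cast this
  have hb0 : ∀ n, 0 < b n := fun n => lt_of_lt_of_le one_pos (hb1 n)
  have hsub : Subadditive (fun n => Real.log (b n)) := by
    intro m n
    have h1 : b (m + n) ≤ b m * b n := by
      show (({w : V | G.dist o w ≤ m + n}.ncard : ℕ) : ℝ)
        ≤ (({w : V | G.dist o w ≤ m}.ncard : ℕ) : ℝ) * (({w : V | G.dist o w ≤ n}.ncard : ℕ) : ℝ)
      exact_mod_cast ball_mul G hG hf ht o m n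
    rw [← Real.log_mul (hb0 m).ne' (hb0 n).ne']
    exact Real.log_le_log (hb0 _) h1
  have hbdd : BddBelow (Set.range fun n => Real.log (b n) / n) := by
    refine ⟨0, ?_⟩
    rintro _ ⟨n, rfl⟩
    exact div_nonneg (Real.log_nonneg (hb1 n)) (Nat.cast_nonneg n)
  have htend := hsub.tendsto_lim hbdd
  refine ⟨Real.exp hsub.lim, ?_, ?_, ?_⟩
  · have h1 : Real.log c ≤ hsub.lim := by
      refine ge_of_tendsto htend ?_
      filter_upwards [Filter.eventually_gt_atTop 0] with n hn
      have hn' : (0 : ℝ) < n := by exact_mod_cast hn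
      rw [le_div_iff₀ hn', mul_comm, ← Real.log_pow]
      exact Real.log_le_log (pow_pos (by linarith) n) (hgr n)
    rw [← Real.exp_log (show 0 < c by linarith)]
    exact Real.exp_le_exp.mpr h1
  · rw [Real.log_exp]
    exact htend
  · intro n
    rcases Nat.eq_zero_or_pos n with rfl | hn
    · rw [pow_zero]; exact hb1 0
    · have h1 := hsub.lim_le_div hbdd hn.ne'
      have hn' : (0 : ℝ) < n := by exact_mod_cast hn
      rw [le_div_iff₀ hn'] at h1
      rw [← Real.exp_nat_mul]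
      show Real.exp ((n : ℝ) * hsub.lim) ≤ b n
      rw [← Real.exp_log (hb0 n)]
      apply Real.exp_le_exp.mpr
      linarith

open Classical in
/-- Upper bound for the Cheeger constant of bounded weights. -/
theorem upper (hG : G.Connected) (hf : ∀ v, (G.neighborSet v).Finite)
    (ht : ∀ u v : V, ∃ φ : G ≃g G, φ u = v) (o : V) (g : ℝ) (hg : 1 < g)
    (hgr : Filter.Tendsto (fun n : ℕ => Real.log (({w : V | G.dist o w ≤ n}.ncard : ℕ) : ℝ) / n)
        Filter.atTop (nhds (Real.log g)))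
    (w : V → V → ℝ) (hs : ∀ x y, w x y = w y x) (h0 : ∀ x y, 0 ≤ w x y) (K : ℝ)
    (hK : ∀ x y, w x y ≤ K) (hadj : ∀ x y, ¬ G.Adj x y → w x y = 0) (v v' : V) (hv : w v v' ≠ 0)
    (ε : ℝ) (hε : ∀ S : Finset V, ε * ∑ x ∈ S, ∑ y ∈ (hf x).toFinset, w x y
      ≤ ∑ x ∈ S, ∑ y ∈ (hf x).toFinset \ S, w x y) : ε ≤ (g - 1) / (g + 1) := by
  by_cases hε0 : ε ≤ 0
  · exact hε0.trans (div_nonneg (by linarith) (by linarith))
  have hε0' : 0 < ε := not_le.mp hε0
  let B : ℕ → Finset V := fun n => (ball_finite G hG hf v n).toFinset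
  have hB : ∀ n x, x ∈ B n ↔ G.dist v x ≤ n := by
    intro n x
    show x ∈ (ball_finite G hG hf v n).toFinset ↔ _
    rw [Set.Finite.mem_toFinset]
    rfl
  have hBsub : ∀ n, B n ⊆ B (n + 1) := by
    intro n x hx
    rw [hB] at hx ⊢
    omega
  have hnb : ∀ n x y, x ∈ B n → G.Adj x y → y ∈ B (n + 1) := by
    intro n x y hx hxy
    rw [hB] at hx ⊢
    have h1 := hG.dist_triangle (u := v) (v := x) (w := y)
    have h2 := SimpleGraph.dist_eq_one_iff_adj.mpr hxy
    omega
  -- sums over neighbours as sums over a big ball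
  have hbig : ∀ (n : ℕ) (x : V) (S : Finset V), x ∈ B n →
      ∑ y ∈ (hf x).toFinset \ S, w x y = ∑ y ∈ B (n + 1) \ S, w x y := by
    intro n x S hx
    apply Finset.sum_subset
    · apply Finset.sdiff_subset_sdiff _ (Finset.Subset.refl S)
      intro y hy
      rw [Set.Finite.mem_toFinset] at hy
      exact hnb n x y hx hy
    · intro y hy hy'
      apply hadj
      intro h
      apply hy'
      rw [Finset.mem_sdiff, Set.Finite.mem_toFinset]
      exact ⟨h, (Finset.mem_sdiff.mp hy).2⟩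
  have hbig0 : ∀ (n : ℕ) (x : V), x ∈ B n →
      ∑ y ∈ (hf x).toFinset, w x y = ∑ y ∈ B (n + 1), w x y := by
    intro n x hx
    have := hbig n x ∅ hx
    rwa [Finset.sdiff_empty, Finset.sdiff_empty] at this
  let W : V → ℝ := fun x => ∑ y ∈ (hf x).toFinset, w x y
  let u : ℕ → ℝ := fun n => ∑ x ∈ B n, W x
  have hW0 : ∀ x, 0 ≤ W x := fun x => Finset.sum_nonneg (fun y _ => h0 x y)
  have hstep : ∀ n, (1 + ε) * u n ≤ (1 - ε) * u (n + 1) := by
    intro n
    -- boundaries
    have e0 : ∑ x ∈ B n, ∑ y ∈ (hf x).toFinset \ B n, w x y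
        = ∑ x ∈ B n, ∑ y ∈ B (n + 1) \ B n, w x y :=
      Finset.sum_congr rfl (fun x hx => hbig n x (B n) hx)
    have e1 : ∑ x ∈ B (n + 1), ∑ y ∈ (hf x).toFinset \ B (n + 1), w x y
        = ∑ x ∈ B (n + 1) \ B n, ∑ y ∈ B (n + 2) \ B (n + 1), w x y := by
      rw [← Finset.sum_sdiff (hBsub n)]
      have hz : ∑ x ∈ B n, ∑ y ∈ (hf x).toFinset \ B (n + 1), w x y = 0 := by
        refine Finset.sum_eq_zero (fun x hx => Finset.sum_eq_zero (fun y hy => ?_))
        exfalso
        rw [Finset.mem_sdiff, Set.Finite.mem_toFinset] at hy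
        exact hy.2 (hnb n x y hx hy.1)
      rw [hz, add_zero]
      exact Finset.sum_congr rfl (fun x hx => hbig (n + 1) x (B (n + 1)) (Finset.mem_sdiff.mp hx).1)
    have e2 : ∑ x ∈ B (n + 1) \ B n, W x
        ≥ ∑ x ∈ B (n + 1) \ B n, (∑ y ∈ B n, w x y + ∑ y ∈ B (n + 2) \ B (n + 1), w x y) := by
      refine Finset.sum_le_sum (fun x hx => ?_)
      show _ ≤ ∑ y ∈ (hf x).toFinset, w x y
      rw [hbig0 (n + 1) x (Finset.mem_sdiff.mp hx).1, ← Finset.sum_union]
      · refine Finset.sum_le_sum_of_subset_of_nonneg ?_ (fun y _ _ => h0 x y)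
        apply Finset.union_subset
        · exact (hBsub n).trans (hBsub (n + 1))
        · exact Finset.sdiff_subset
      · rw [Finset.disjoint_left]
        intro y hy hy'
        exact (Finset.mem_sdiff.mp hy').2 (hBsub n hy)
    have e3 : ∑ x ∈ B (n + 1) \ B n, ∑ y ∈ B n, w x y
        = ∑ x ∈ B n, ∑ y ∈ B (n + 1) \ B n, w x y := by
      rw [Finset.sum_comm]
      exact Finset.sum_congr rfl (fun y _ => Finset.sum_congr rfl (fun x _ => hs x y))
    have e4 : u (n + 1) = ∑ x ∈ B (n + 1) \ B n, W x + u n :=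
      (Finset.sum_sdiff (hBsub n)).symm
    rw [Finset.sum_add_distrib, e3] at e2
    have h1 := hε (B n)
    have h2 := hε (B (n + 1))
    rw [e0] at h1
    rw [e1] at h2
    have h1' : ε * u n ≤ ∑ x ∈ B n, ∑ y ∈ B (n + 1) \ B n, w x y := h1
    have h2' : ε * u (n + 1) ≤ ∑ x ∈ B (n + 1) \ B n, ∑ y ∈ B (n + 2) \ B (n + 1), w x y := h2
    nlinarith
  -- positivity at the centre
  have hadjv : G.Adj v v' := by
    by_contra h
    exact hv (hadj v v' h)
  have hWv : 0 < W v := by
    have h1 : w v v' ≤ W v := by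
      show w v v' ≤ ∑ y ∈ (hf v).toFinset, w v y
      refine Finset.single_le_sum (f := fun y => w v y) (fun y _ => h0 v y) ?_
      rw [Set.Finite.mem_toFinset]
      exact hadjv
    exact lt_of_lt_of_le (lt_of_le_of_ne (h0 v v') (Ne.symm hv)) h1
  have hu0 : 0 < u 0 := by
    have h1 : W v ≤ u 0 := by
      refine Finset.single_le_sum (f := W) (fun y _ => hW0 y) ?_
      rw [hB, SimpleGraph.dist_self]
    exact lt_of_lt_of_le hWv h1
  have hunn : ∀ n, 0 ≤ u n := fun n => Finset.sum_nonneg (fun x _ => hW0 x)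
  have hε1 : ε < 1 := by
    by_contra hcon
    have h1 := hstep 0
    have h2 : (1 - ε) * u 1 ≤ 0 := mul_nonpos_of_nonpos_of_nonneg (by linarith) (hunn 1)
    have h3 : 0 < (1 + ε) * u 0 := mul_pos (by linarith) hu0
    have h1' : (1 + ε) * u 0 ≤ (1 - ε) * u 1 := h1
    linarith
  set r : ℝ := (1 + ε) / (1 - ε) with hr
  have hr0 : 0 < r := div_pos (by linarith) (by linarith)
  have hgrow : ∀ n, r ^ n * u 0 ≤ u n := by
    intro n
    induction n with
    | zero => simp
    | succ n ih =>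
      have h1 := hstep n
      have h2 : r * u n ≤ u (n + 1) := by
        rw [hr, div_mul_eq_mul_div, div_le_iff₀ (by linarith)]
        linarith
      calc r ^ (n + 1) * u 0 = r * (r ^ n * u 0) := by ring
        _ ≤ r * u n := mul_le_mul_of_nonneg_left ih hr0.le
        _ ≤ u (n + 1) := h2
  -- upper bound for `u n`
  set d : ℝ := (({y : V | G.dist o y ≤ 1}.ncard : ℕ) : ℝ) with hd
  have hd0 : 0 < d := by
    have := ball_pos G hG hf o 1
    rw [hd]; exact_mod_cast this
  have hK0 : 0 < K := lt_of_lt_of_le (lt_of_le_of_ne (h0 v v') (Ne.symm hv)) (hK v v')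
  have hWle : ∀ x, W x ≤ K * d := by
    intro x
    have h1 : W x ≤ (hf x).toFinset.card • K :=
      Finset.sum_le_card_nsmul _ _ _ (fun y _ => hK x y)
    have h2 : (hf x).toFinset.card ≤ {y : V | G.dist o y ≤ 1}.ncard := by
      rw [← ball_ncard G hG ht x o 1, ← Set.ncard_eq_toFinset_card _ (hf x)]
      apply Set.ncard_le_ncard _ (ball_finite G hG hf x 1)
      intro y hy
      have hxy : G.Adj x y := hy
      show G.dist x y ≤ 1
      rw [SimpleGraph.dist_eq_one_iff_adj.mpr hxy]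
    have h3 : (((hf x).toFinset.card : ℕ) : ℝ) ≤ d := by rw [hd]; exact_mod_cast h2
    rw [nsmul_eq_mul] at h1
    nlinarith
  have hule : ∀ n, u n ≤ (K * d) * (({w : V | G.dist o w ≤ n}.ncard : ℕ) : ℝ) := by
    intro n
    have h1 : u n ≤ (B n).card • (K * d) := Finset.sum_le_card_nsmul _ _ _ (fun x _ => hWle x)
    have h2 : (B n).card = {w : V | G.dist o w ≤ n}.ncard := by
      rw [← ball_ncard G hG ht v o n]
      exact (Set.ncard_eq_toFinset_card _ (ball_finite G hG hf v n)).symm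
    rw [h2, nsmul_eq_mul, mul_comm] at h1
    exact h1
  -- comparison of the growth rates
  have hκ : 0 < u 0 / (K * d) := div_pos hu0 (mul_pos hK0 hd0)
  have hlow : ∀ n : ℕ, Real.log (u 0 / (K * d)) + n * Real.log r
      ≤ Real.log (({w : V | G.dist o w ≤ n}.ncard : ℕ) : ℝ) := by
    intro n
    rw [← Real.log_pow, ← Real.log_mul hκ.ne' (pow_pos hr0 n).ne']
    apply Real.log_le_log (mul_pos hκ (pow_pos hr0 n))
    rw [div_mul_eq_mul_div, div_le_iff₀ (mul_pos hK0 hd0)]
    have h1 := (hgrow n).trans (hule n)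
    linarith
  have hlim : Filter.Tendsto (fun n : ℕ => Real.log (u 0 / (K * d)) / n + Real.log r)
      Filter.atTop (nhds (0 + Real.log r)) :=
    (tendsto_const_div_atTop_nhds_zero_nat _).add tendsto_const_nhds
  have hfin : 0 + Real.log r ≤ Real.log g := by
    refine le_of_tendsto_of_tendsto hlim hgr ?_
    filter_upwards [Filter.eventually_gt_atTop 0] with n hn
    have hn' : (0 : ℝ) < n := by exact_mod_cast hn
    rw [le_div_iff₀ hn', add_mul, div_mul_cancel₀ _ hn'.ne']
    have := hlow n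
    linarith
  rw [zero_add] at hfin
  have hrg : r ≤ g := (Real.log_le_log_iff hr0 (by linarith)).mp hfin
  rw [hr, div_le_iff₀ (by linarith)] at hrg
  rw [le_div_iff₀ (by linarith)]
  linarith

end Pool.Agent.W_MP_55e385_h66
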