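import Pool.Agent.W_MP_55e385_h66.Weights

set_option autoImplicit false

/-!
# Breadth first search trees in transitive graphs
-/

namespace Pool.Agent.W_MP_55e385_h66

variable {V : Type} (G : SimpleGraph V)

lemma ball_finite (hG : G.Connected) (hf : ∀ v, (G.neighborSet v).Finite) (x : V) (n : ℕ) :
    {y : V | G.dist x y ≤ n}.Finite := by
  induction n with
  | zero =>
    refine (Set.finite_singleton x).subset ?_
    intro y hy
    have : G.dist x y = 0 := Nat.le_zero.mp hy
    exact (hG.dist_eq_zero_iff.mp this).symm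
  | succ n ih =>
    refine ((ih.biUnion (fun z _ => hf z)).union ih).subset ?_
    intro y hy
    have hy' : G.dist x y ≤ n + 1 := hy
    rcases Nat.lt_or_ge n (G.dist x y) with h | h
    · left
      obtain ⟨p, hp⟩ := hG.exists_walk_length_eq_dist x y
      have hlen : p.length = n + 1 := by omega
      have h1 : ¬ p.Nil := by
        intro hnil
        have := SimpleGraph.Walk.length_eq_zero_iff.mpr hnil
        omega
      refine Set.mem_biUnion (x := p.penultimate) ?_ ?_
      · show G.dist x p.penultimate ≤ n
        have h2 : p.dropLast.length + 1 = p.length := SimpleGraph.Walk.length_dropLast_add_one h1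
        have h3 := SimpleGraph.dist_le p.dropLast
        omega
      · exact SimpleGraph.Walk.adj_penultimate h1
    · right; exact h

lemma exists_parent (hG : G.Connected) (o x : V) (hx : x ≠ o) :
    ∃ y, G.Adj y x ∧ G.dist o y + 1 = G.dist o x := by
  obtain ⟨p, hp⟩ := hG.exists_walk_length_eq_dist o x
  have h1 : ¬ p.Nil := by
    intro hnil
    exact hx hnil.eq.symm
  refine ⟨p.penultimate, SimpleGraph.Walk.adj_penultimate h1, ?_⟩
  have h2 : p.dropLast.length + 1 = p.length := SimpleGraph.Walk.length_dropLast_add_one h1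
  have h3 := SimpleGraph.dist_le p.dropLast
  have h4 : G.dist o x ≤ G.dist o p.penultimate + 1 := by
    have h5 := hG.dist_triangle (u := o) (v := p.penultimate) (w := x)
    have h6 : G.dist p.penultimate x ≤ 1 := by
      have := SimpleGraph.dist_eq_one_iff_adj.mpr (SimpleGraph.Walk.adj_penultimate h1)
      omega
    omega
  omega

open Classical in
/-- The parent of `x` in the tree rooted at `o`. -/
noncomputable def par (hG : G.Connected) (o x : V) : V :=
  if h : x = o then o else (exists_parent G hG o x h).choose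

lemma par_adj (hG : G.Connected) (o x : V) (hx : x ≠ o) : G.Adj (par G hG o x) x := by
  rw [par, dif_neg hx]
  exact (exists_parent G hG o x hx).choose_spec.1

lemma par_dist (hG : G.Connected) (o x : V) (hx : x ≠ o) :
    G.dist o (par G hG o x) + 1 = G.dist o x := by
  rw [par, dif_neg hx]
  exact (exists_parent G hG o x hx).choose_spec.2

lemma child_finite (hG : G.Connected) (hf : ∀ v, (G.neighborSet v).Finite) (o x : V) :
    {y : V | y ≠ o ∧ par G hG o y = x}.Finite := by
  refine (hf x).subset ?_
  rintro y ⟨hy, rfl⟩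
  exact par_adj G hG o y hy

/-- The children of `x`. -/
noncomputable def chi (hG : G.Connected) (hf : ∀ v, (G.neighborSet v).Finite) (o x : V) :
    Finset V := (child_finite G hG hf o x).toFinset

lemma mem_chi (hG : G.Connected) (hf : ∀ v, (G.neighborSet v).Finite) (o x y : V) :
    y ∈ chi G hG hf o x ↔ y ≠ o ∧ par G hG o y = x := by
  rw [chi, Set.Finite.mem_toFinset]
  rfl

/-- Descendants in generation `n`. -/
def des (hG : G.Connected) (o : V) (n : ℕ) (x : V) : Set V :=
  {y | G.dist o y = G.dist o x + n ∧ (par G hG o)^[n] y = x}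

lemma par_iter_dist (hG : G.Connected) (o : V) (n : ℕ) (y : V) (h : n ≤ G.dist o y) :
    G.dist o ((par G hG o)^[n] y) + n = G.dist o y := by
  induction n generalizing y with
  | zero => simp
  | succ n ih =>
    have hy : y ≠ o := by
      rintro rfl
      rw [SimpleGraph.dist_self] at h
      omega
    have h1 := par_dist G hG o y hy
    rw [Function.iterate_succ_apply]
    have := ih (par G hG o y) (by omega)
    omega

lemma dist_iter_le (hG : G.Connected) (o : V) (n : ℕ) (y : V) :
    G.dist ((par G hG o)^[n] y) y ≤ n := by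
  induction n generalizing y with
  | zero => simp
  | succ n ih =>
    rw [Function.iterate_succ_apply]
    by_cases hy : y = o
    · subst hy
      have e : par G hG y y = y := by rw [par, dif_pos rfl]
      rw [e]
      have := ih y
      omega
    · have h1 := ih (par G hG o y)
      have h2 : G.dist (par G hG o y) y = 1 :=
        SimpleGraph.dist_eq_one_iff_adj.mpr (par_adj G hG o y hy)
      have h3 := hG.dist_triangle (u := (par G hG o)^[n] (par G hG o y)) (v := par G hG o y)
        (w := y)
      omega

lemma des_subset (hG : G.Connected) (o : V) (n : ℕ) (x : V) :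
    des G hG o n x ⊆ {y | G.dist x y = n} := by
  rintro y ⟨h1, h2⟩
  show G.dist x y = n
  have h3 := dist_iter_le G hG o n y
  rw [h2] at h3
  have h4 := hG.dist_triangle (u := o) (v := x) (w := y)
  omega

lemma sphere_finite (hG : G.Connected) (hf : ∀ v, (G.neighborSet v).Finite) (x : V) (n : ℕ) :
    {y : V | G.dist x y = n}.Finite :=
  (ball_finite G hG hf x n).subset (fun _ hy => le_of_eq hy)

lemma des_root (hG : G.Connected) (o : V) (n : ℕ) : des G hG o n o = {y | G.dist o y = n} := by
  apply Set.Subset.antisymm (des_subset G hG o n o)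
  intro y hy
  have hy' : G.dist o y = n := hy
  refine ⟨by rw [SimpleGraph.dist_self, zero_add]; exact hy', ?_⟩
  have h := par_iter_dist G hG o n y (le_of_eq hy'.symm)
  have h0 : G.dist o ((par G hG o)^[n] y) = 0 := by omega
  exact (hG.dist_eq_zero_iff.mp h0).symm

lemma des_succ (hG : G.Connected) (hf : ∀ v, (G.neighborSet v).Finite) (o : V) (n : ℕ) (x : V) :
    des G hG o (n + 1) x ⊆ ⋃ c ∈ chi G hG hf o x, des G hG o n c := by
  rintro y ⟨h1, h2⟩
  rw [Function.iterate_succ_apply'] at h2
  have h3 := par_iter_dist G hG o n y (by omega)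
  have hne : (par G hG o)^[n] y ≠ o := by
    intro h
    rw [h, SimpleGraph.dist_self] at h3
    omega
  have h4 := par_dist G hG o _ hne
  rw [h2] at h4
  simp only [Set.mem_iUnion]
  refine ⟨(par G hG o)^[n] y, (mem_chi G hG hf o x _).mpr ⟨hne, h2⟩, ?_, rfl⟩
  omega

lemma dist_iso (φ : G ≃g G) (hG : G.Connected) (x y : V) : G.dist (φ x) (φ y) = G.dist x y := by
  apply le_antisymm
  · obtain ⟨p, hp⟩ := hG.exists_walk_length_eq_dist x y
    rw [← hp]
    have := SimpleGraph.dist_le (p.map φ.toHom)
    rwa [SimpleGraph.Walk.length_map] at this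
  · obtain ⟨p, hp⟩ := hG.exists_walk_length_eq_dist (φ x) (φ y)
    rw [← hp]
    have := SimpleGraph.dist_le (p.map φ.symm.toHom)
    rw [SimpleGraph.Walk.length_map] at this
    have e : ∀ z, φ.symm.toHom (φ z) = z := fun z => φ.symm_apply_apply z
    rw [e, e] at this
    exact this

lemma sphere_ncard (hG : G.Connected) (ht : ∀ u v : V, ∃ φ : G ≃g G, φ u = v) (x o : V) (n : ℕ) :
    {y : V | G.dist x y = n}.ncard = {y : V | G.dist o y = n}.ncard := by
  obtain ⟨φ, hφ⟩ := ht x o
  have : {y : V | G.dist o y = n} = φ '' {y : V | G.dist x y = n} := by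
    ext y
    constructor
    · intro hy
      refine ⟨φ.symm y, ?_, φ.apply_symm_apply y⟩
      show G.dist x (φ.symm y) = n
      rw [← dist_iso G φ hG, hφ, φ.apply_symm_apply]
      exact hy
    · rintro ⟨z, hz, rfl⟩
      show G.dist o (φ z) = n
      rw [← hφ, dist_iso G φ hG]
      exact hz
  rw [this, Set.ncard_image_of_injective _ φ.injective]

/-- The weights on a transitive graph. -/
theorem exists_phi (hG : G.Connected) (hf : ∀ v, (G.neighborSet v).Finite)
    (ht : ∀ u v : V, ∃ φ : G ≃g G, φ u = v) (o : V) (g : ℝ) (hg : 1 < g)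
    (hgr : ∀ n : ℕ, g ^ n ≤ (({w : V | G.dist o w ≤ n}.ncard : ℕ) : ℝ)) :
    ∃ φ : V → ℝ, (∀ x, 0 ≤ φ x) ∧ (∀ x, φ x ≤ 1) ∧ φ o = 1 ∧
      ∀ x, g * φ x ≤ ∑ y ∈ chi G hG hf o x, φ y := by
  have hl : 0 < g := by linarith
  refine exists_weights (chi G hG hf o) g hl (fun n x => ((des G hG o n x).ncard : ℝ))
    (fun n x => Nat.cast_nonneg _) o ?_ ?_ ?_
  · intro n x
    show ((des G hG o (n + 1) x).ncard : ℝ) ≤ ∑ y ∈ chi G hG hf o x, ((des G hG o n y).ncard : ℝ)
    have hfin : ∀ y, (des G hG o n y).Finite := fun y =>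
      (sphere_finite G hG hf y n).subset (des_subset G hG o n y)
    have h1 : (des G hG o (n + 1) x).ncard ≤ (⋃ c ∈ chi G hG hf o x, des G hG o n c).ncard :=
      Set.ncard_le_ncard (des_succ G hG hf o n x)
        ((chi G hG hf o x).finite_toSet.biUnion (fun y _ => hfin y))
    have h2 : (⋃ c ∈ chi G hG hf o x, des G hG o n c).ncard
        ≤ ∑ y ∈ chi G hG hf o x, (des G hG o n y).ncard :=
      Finset.set_ncard_biUnion_le _ _
    exact_mod_cast h1.trans h2
  · intro n x
    show ((des G hG o n x).ncard : ℝ) ≤ ((des G hG o n o).ncard : ℝ)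
    have h1 : (des G hG o n x).ncard ≤ {y : V | G.dist x y = n}.ncard :=
      Set.ncard_le_ncard (des_subset G hG o n x) (sphere_finite G hG hf x n)
    rw [sphere_ncard G hG ht x o n, ← des_root G hG o n] at h1
    exact_mod_cast h1
  · intro M r hr0 hr1
    by_contra hcon
    simp only [not_exists, not_lt] at hcon
    have hM : 0 ≤ M := by
      have h := hcon 0
      rw [pow_zero, mul_one] at h
      exact le_trans (Nat.cast_nonneg _) h
    set q : ℝ := max 1 (r * g) with hq
    have hq1 : 1 ≤ q := le_max_left _ _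
    have hq2 : r * g ≤ q := le_max_right _ _
    have hqg : q < g := max_lt hg (by nlinarith)
    have hball : ∀ n : ℕ, (({w : V | G.dist o w ≤ n}.ncard : ℕ) : ℝ) ≤ (M * q ^ n) * (n + 1) := by
      intro n
      have h1 : {w : V | G.dist o w ≤ n} ⊆ ⋃ k ∈ Finset.range (n + 1), {y : V | G.dist o y = k} := by
        intro w hw
        simp only [Set.mem_iUnion]
        exact ⟨G.dist o w, Finset.mem_range.mpr (Nat.lt_succ_of_le hw), rfl⟩
      have h2 : {w : V | G.dist o w ≤ n}.ncard
          ≤ ∑ k ∈ Finset.range (n + 1), {y : V | G.dist o y = k}.ncard :=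
        (Set.ncard_le_ncard h1 ((Finset.range (n + 1)).finite_toSet.biUnion
          (fun k _ => sphere_finite G hG hf o k))).trans (Finset.set_ncard_biUnion_le _ _)
      have h3 : ∀ k ∈ Finset.range (n + 1), (({y : V | G.dist o y = k}.ncard : ℕ) : ℝ)
          ≤ M * q ^ n := by
        intro k hk
        rw [← des_root G hG o k]
        refine (hcon k).trans (mul_le_mul_of_nonneg_left ?_ hM)
        exact (pow_le_pow_left₀ (mul_pos hr0 hl).le hq2 k).trans
          (pow_le_pow_right₀ hq1 (Nat.lt_succ_iff.mp (Finset.mem_range.mp hk)))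
      calc (({w : V | G.dist o w ≤ n}.ncard : ℕ) : ℝ)
          ≤ ((∑ k ∈ Finset.range (n + 1), {y : V | G.dist o y = k}.ncard : ℕ) : ℝ) := by
            exact_mod_cast h2
        _ = ∑ k ∈ Finset.range (n + 1), (({y : V | G.dist o y = k}.ncard : ℕ) : ℝ) := by
            push_cast; rfl
        _ ≤ ∑ _k ∈ Finset.range (n + 1), M * q ^ n := Finset.sum_le_sum h3
        _ = (M * q ^ n) * (n + 1) := by
            rw [Finset.sum_const, Finset.card_range, nsmul_eq_mul]
            push_cast
            ring
    -- contradiction with growth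
    have hq0 : 0 < q := by linarith
    have hr : 1 < g / q := (one_lt_div hq0).mpr hqg
    have hkey : ∀ n : ℕ, (g / q) ^ n ≤ M * (n + 1) := by
      intro n
      have h := (hgr n).trans (hball n)
      rw [div_pow, div_le_iff₀ (pow_pos hq0 n)]
      linarith
    have htend : Filter.Tendsto (fun n : ℕ => ((n : ℝ) + 1) / (g / q) ^ n) Filter.atTop
        (nhds 0) := by
      have h1 := tendsto_pow_const_div_const_pow_of_one_lt 1 hr
      have h2 := tendsto_pow_const_div_const_pow_of_one_lt 0 hr
      have h3 := h1.add h2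
      simp only [pow_one, pow_zero, add_zero] at h3
      refine h3.congr (fun n => ?_)
      rw [← add_div]
    have hev : ∀ᶠ n : ℕ in Filter.atTop, ((n : ℝ) + 1) / (g / q) ^ n < 1 / (M + 1) :=
      htend.eventually (gt_mem_nhds (by positivity))
    obtain ⟨n, hn⟩ := hev.exists
    have hp : 0 < (g / q) ^ n := pow_pos (by linarith) n
    rw [div_lt_div_iff₀ hp (by linarith)] at hn
    have := hkey n
    nlinarith [Nat.cast_nonneg (α := ℝ) n]

end Pool.Agent.W_MP_55e385_h66
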