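import Pool.Agent.W_MP_55e385_h66.Tree

set_option autoImplicit false

/-!
# The weighted tree has positive Cheeger constant
-/

namespace Pool.Agent.W_MP_55e385_h66

variable {V : Type} (G : SimpleGraph V)

open Classical in
/-- The edge weights given by vertex weights: the edge from the parent of `y` to `y` has
weight `φ y`. -/
noncomputable def wt (hG : G.Connected) (hf : ∀ v, (G.neighborSet v).Finite) (o : V) (φ : V → ℝ)
    (x y : V) : ℝ :=
  if y ∈ chi G hG hf o x then φ y else if x ∈ chi G hG hf o y then φ x else 0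

variable (hG : G.Connected) (hf : ∀ v, (G.neighborSet v).Finite) (o : V) (φ : V → ℝ)

lemma not_both (x y : V) (h : y ∈ chi G hG hf o x) : x ∉ chi G hG hf o y := by
  intro h'
  rw [mem_chi] at h h'
  have h1 := par_dist G hG o y h.1
  have h2 := par_dist G hG o x h'.1
  rw [h.2] at h1
  rw [h'.2] at h2
  omega

lemma wt_symm (x y : V) : wt G hG hf o φ x y = wt G hG hf o φ y x := by
  rw [wt, wt]
  by_cases h : y ∈ chi G hG hf o x
  · rw [if_pos h, if_neg (not_both G hG hf o x y h), if_pos h]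
  · rw [if_neg h]
    by_cases h' : x ∈ chi G hG hf o y
    · rw [if_pos h', if_pos h']
    · rw [if_neg h', if_neg h', if_neg h]

lemma wt_nonneg (h0 : ∀ x, 0 ≤ φ x) (x y : V) : 0 ≤ wt G hG hf o φ x y := by
  rw [wt]
  split_ifs
  · exact h0 y
  · exact h0 x
  · exact le_rfl

lemma wt_le_one (h1 : ∀ x, φ x ≤ 1) (x y : V) : wt G hG hf o φ x y ≤ 1 := by
  rw [wt]
  split_ifs
  · exact h1 y
  · exact h1 x
  · exact zero_le_one

lemma wt_tr (x y : V) (h : ¬ (tr G hG o).Adj x y) : wt G hG hf o φ x y = 0 := by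
  rw [tr_adj, not_or] at h
  rw [wt, if_neg, if_neg]
  · intro h'; exact h.2 ((mem_chi G hG hf o y x).mp h')
  · intro h'; exact h.1 ((mem_chi G hG hf o x y).mp h')

lemma chi_sub (x : V) : chi G hG hf o x ⊆ (hf x).toFinset := by
  intro y hy
  rw [mem_chi] at hy
  rw [Set.Finite.mem_toFinset]
  obtain ⟨h1, rfl⟩ := hy
  exact par_adj G hG o y h1

open Classical in
lemma sum_parent_le (S : Finset V) (y : V) (a : ℝ) (ha : 0 ≤ a) :
    ∑ x ∈ S, (if y ∈ chi G hG hf o x then a else 0) ≤ a := by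
  calc ∑ x ∈ S, (if y ∈ chi G hG hf o x then a else 0)
      ≤ ∑ x ∈ S, (if x = par G hG o y then a else 0) := by
        refine Finset.sum_le_sum (fun x _ => ?_)
        by_cases h : y ∈ chi G hG hf o x
        · rw [if_pos h, if_pos ((mem_chi G hG hf o x y).mp h).2.symm]
        · rw [if_neg h]
          split_ifs
          · exact ha
          · exact le_rfl
    _ ≤ a := by
        rw [Finset.sum_ite_eq']
        split_ifs
        · exact le_rfl
        · exact ha

open Classical in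
lemma deg_le (h0 : ∀ x, 0 ≤ φ x) (x : V) :
    ∑ y ∈ (hf x).toFinset, wt G hG hf o φ x y ≤ ∑ y ∈ chi G hG hf o x, φ y + φ x := by
  have h1 : ∀ y ∈ (hf x).toFinset, wt G hG hf o φ x y
      ≤ (if y ∈ chi G hG hf o x then φ y else 0) + (if x ∈ chi G hG hf o y then φ x else 0) := by
    intro y _
    rw [wt]
    by_cases h : y ∈ chi G hG hf o x
    · rw [if_pos h, if_pos h]
      have : 0 ≤ (if x ∈ chi G hG hf o y then φ x else 0) := by
        split_ifs
        · exact h0 x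
        · exact le_rfl
      linarith
    · rw [if_neg h, if_neg h, zero_add]
  refine (Finset.sum_le_sum h1).trans ?_
  rw [Finset.sum_add_distrib]
  refine add_le_add ?_ (sum_parent_le G hG hf o _ x (φ x) (h0 x))
  rw [← Finset.sum_filter]
  refine Finset.sum_le_sum_of_subset_of_nonneg ?_ (fun y _ _ => h0 y)
  intro y hy
  exact (Finset.mem_filter.mp hy).2

lemma deg_ge (h0 : ∀ x, 0 ≤ φ x) (x : V) :
    ∑ y ∈ chi G hG hf o x, φ y ≤ ∑ y ∈ (hf x).toFinset, wt G hG hf o φ x y := by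
  have h1 : ∑ y ∈ chi G hG hf o x, φ y = ∑ y ∈ chi G hG hf o x, wt G hG hf o φ x y := by
    refine Finset.sum_congr rfl (fun y hy => ?_)
    rw [wt, if_pos hy]
  rw [h1]
  exact Finset.sum_le_sum_of_subset_of_nonneg (chi_sub G hG hf o x)
    (fun y _ _ => wt_nonneg G hG hf o φ h0 x y)

open Classical in
/-- The Cheeger inequality for the weighted tree. -/
theorem cheeger (h0 : ∀ x, 0 ≤ φ x) (g : ℝ) (hg : 1 < g)
    (hφ : ∀ x, g * φ x ≤ ∑ y ∈ chi G hG hf o x, φ y) (S : Finset V) :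
    (g - 1) / (g + 1) * ∑ x ∈ S, ∑ y ∈ (hf x).toFinset, wt G hG hf o φ x y
      ≤ ∑ x ∈ S, ∑ y ∈ (hf x).toFinset \ S, wt G hG hf o φ x y := by
  set A := ∑ x ∈ S, ∑ y ∈ chi G hG hf o x, φ y with hA
  set B := ∑ x ∈ S, φ x with hB
  have hgB : g * B ≤ A := by
    rw [hA, hB, Finset.mul_sum]
    exact Finset.sum_le_sum (fun x _ => hφ x)
  have hW : ∑ x ∈ S, ∑ y ∈ (hf x).toFinset, wt G hG hf o φ x y ≤ A + B := by
    rw [hA, hB, ← Finset.sum_add_distrib]
    exact Finset.sum_le_sum (fun x _ => deg_le G hG hf o φ h0 x)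
  have hin : ∑ x ∈ S, ∑ y ∈ chi G hG hf o x ∩ S, φ y ≤ B := by
    have e : ∀ x ∈ S, ∑ y ∈ chi G hG hf o x ∩ S, φ y
        = ∑ y ∈ S, (if y ∈ chi G hG hf o x then φ y else 0) := by
      intro x _
      rw [← Finset.sum_filter]
      refine Finset.sum_congr ?_ (fun _ _ => rfl)
      ext y
      rw [Finset.mem_inter, Finset.mem_filter, and_comm]
    rw [Finset.sum_congr rfl e, Finset.sum_comm, hB]
    exact Finset.sum_le_sum (fun y _ => sum_parent_le G hG hf o S y (φ y) (h0 y))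
  have hout : ∑ x ∈ S, ∑ y ∈ chi G hG hf o x \ S, φ y
      ≤ ∑ x ∈ S, ∑ y ∈ (hf x).toFinset \ S, wt G hG hf o φ x y := by
    refine Finset.sum_le_sum (fun x _ => ?_)
    have h1 : ∑ y ∈ chi G hG hf o x \ S, φ y = ∑ y ∈ chi G hG hf o x \ S, wt G hG hf o φ x y := by
      refine Finset.sum_congr rfl (fun y hy => ?_)
      rw [wt, if_pos (Finset.mem_sdiff.mp hy).1]
    rw [h1]
    exact Finset.sum_le_sum_of_subset_of_nonneg
      (Finset.sdiff_subset_sdiff (chi_sub G hG hf o x) (Finset.Subset.refl S))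
      (fun y _ _ => wt_nonneg G hG hf o φ h0 x y)
  have hsplit : A = ∑ x ∈ S, ∑ y ∈ chi G hG hf o x \ S, φ y
      + ∑ x ∈ S, ∑ y ∈ chi G hG hf o x ∩ S, φ y := by
    rw [hA, ← Finset.sum_add_distrib]
    refine Finset.sum_congr rfl (fun x _ => ?_)
    rw [add_comm]
    exact (Finset.sum_inter_add_sum_sdiff _ _ _).symm
  have hg1 : 0 < g + 1 := by linarith
  have hB0 : 0 ≤ B := Finset.sum_nonneg (fun x _ => h0 x)
  rw [div_mul_eq_mul_div, div_le_iff₀ hg1]
  have h3 : A - B ≤ ∑ x ∈ S, ∑ y ∈ (hf x).toFinset \ S, wt G hG hf o φ x y := by linarith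
  have h4 : (g - 1) * ∑ x ∈ S, ∑ y ∈ (hf x).toFinset, wt G hG hf o φ x y ≤ (g - 1) * (A + B) :=
    mul_le_mul_of_nonneg_left hW (by linarith)
  have h5 : (A - B) * (g + 1)
      ≤ (∑ x ∈ S, ∑ y ∈ (hf x).toFinset \ S, wt G hG hf o φ x y) * (g + 1) :=
    mul_le_mul_of_nonneg_right h3 hg1.le
  nlinarith

end Pool.Agent.W_MP_55e385_h66
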