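import Pool.Agent.W_MP_55e385_h66.Bfs

set_option autoImplicit false

/-!
# The breadth first search tree
-/

namespace Pool.Agent.W_MP_55e385_h66

variable {V : Type} (G : SimpleGraph V)

/-- The tree given by the parent map. -/
def tr (hG : G.Connected) (o : V) : SimpleGraph V where
  Adj x y := (y ≠ o ∧ par G hG o y = x) ∨ (x ≠ o ∧ par G hG o x = y)
  symm := ⟨fun _ _ h => h.symm⟩
  loopless := ⟨by
    rintro x (⟨hx, h⟩ | ⟨hx, h⟩)
    · have := par_adj G hG o x hx
      rw [h] at this
      exact G.irrefl this
    · have := par_adj G hG o x hx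
      rw [h] at this
      exact G.irrefl this⟩

lemma tr_adj (hG : G.Connected) (o x y : V) : (tr G hG o).Adj x y ↔
    (y ≠ o ∧ par G hG o y = x) ∨ (x ≠ o ∧ par G hG o x = y) := Iff.rfl

lemma tr_le (hG : G.Connected) (o : V) : tr G hG o ≤ G := by
  intro x y h
  rcases h with ⟨hx, rfl⟩ | ⟨hx, rfl⟩
  · exact par_adj G hG o y hx
  · exact (par_adj G hG o x hx).symm

lemma tr_reach (hG : G.Connected) (o x : V) : (tr G hG o).Reachable o x := by
  obtain ⟨n, hn⟩ : ∃ n, n = G.dist o x := ⟨_, rfl⟩
  induction n using Nat.strong_induction_on generalizing x with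
  | _ n ih =>
    by_cases hx : x = o
    · subst hx; exact SimpleGraph.Reachable.refl _
    · have h1 := par_dist G hG o x hx
      have h2 := ih (G.dist o (par G hG o x)) (by omega) (par G hG o x) rfl
      have h3 : (tr G hG o).Adj (par G hG o x) x := Or.inl ⟨hx, rfl⟩
      exact h2.trans h3.reachable

/-- Vertices below `y`. -/
def below (hG : G.Connected) (o y : V) : Set V :=
  {z | ∃ n, n ≤ G.dist o z ∧ (par G hG o)^[n] z = y}

lemma below_step (hG : G.Connected) (o y a b : V) (ha : a ∈ below G hG o y)
    (hab : (tr G hG o).Adj a b) (hne : ¬ (s(a, b) = s(par G hG o y, y))) (hy : y ≠ o) :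
    b ∈ below G hG o y := by
  obtain ⟨n, hn, h⟩ := ha
  rcases hab with ⟨hb, hpb⟩ | ⟨hao, hpa⟩
  · refine ⟨n + 1, ?_, ?_⟩
    · have := par_dist G hG o b hb
      rw [hpb] at this
      omega
    · rw [Function.iterate_succ_apply, hpb, h]
  · rcases n with _ | n
    · exfalso
      apply hne
      have h' : a = y := h
      subst h'
      rw [hpa, Sym2.eq_swap]
    · refine ⟨n, ?_, ?_⟩
      · have := par_dist G hG o a hao
        rw [hpa] at this
        omega
      · rw [Function.iterate_succ_apply, hpa] at h
        exact h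

lemma tr_acyclic (hG : G.Connected) (o : V) : (tr G hG o).IsAcyclic := by
  rw [SimpleGraph.isAcyclic_iff_forall_isBridge]
  have key : ∀ y, y ≠ o → (tr G hG o).IsBridge s(par G hG o y, y) := by
    intro y hy
    rw [SimpleGraph.isBridge_iff]
    intro hreach
    have hsymm := hreach.symm
    have hall : ∀ z, ((tr G hG o).deleteEdges {s(par G hG o y, y)}).Reachable y z →
        z ∈ below G hG o y := by
      intro z hz
      obtain ⟨p⟩ := hz
      have hgen : ∀ (a b : V) (p : ((tr G hG o).deleteEdges {s(par G hG o y, y)}).Walk a b),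
          a ∈ below G hG o y → b ∈ below G hG o y := by
        intro a b p
        induction p with
        | nil => exact fun h => h
        | @cons a b c hab p ih =>
          intro ha
          apply ih
          rw [SimpleGraph.deleteEdges_adj] at hab
          exact below_step G hG o y a b ha hab.1 (fun heq => hab.2 heq) hy
      exact hgen y z p ⟨0, Nat.zero_le _, rfl⟩
    obtain ⟨n, hn, h⟩ := hall _ hsymm
    have h1 := par_iter_dist G hG o n _ hn
    rw [h] at h1
    have h2 := par_dist G hG o y hy
    omega
  intro e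
  induction e using Sym2.ind with
  | _ x y =>
    intro he
    have he' : (tr G hG o).Adj x y := he
    rcases he' with ⟨hy, rfl⟩ | ⟨hx, rfl⟩
    · exact key y hy
    · have := key x hx
      rw [Sym2.eq_swap] at this
      exact this

lemma tr_isTree (hG : G.Connected) (o : V) : (tr G hG o).IsTree where
  connected := by
    have : Nonempty V := ⟨o⟩
    exact ⟨fun x y => (tr_reach G hG o x).symm.trans (tr_reach G hG o y)⟩
  isAcyclic := tr_acyclic G hG o

end Pool.Agent.W_MP_55e385_h66
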