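import Mathlib

set_option autoImplicit false

/-!
# Bounded weights with children sum at least `lam` times the weight

`ch x` is the finite set of children of `x`, `D n x` an upper estimate for the number of descendants
in generation `n`, `o` the root, and the root has at least as many descendants as any other vertex.
If `D n o` is not exponentially smaller than `lam ^ n`, then there are weights `φ : V → [0, 1]` with `φ o = 1` and
`lam * φ x ≤ ∑ y ∈ ch x, φ y`.
-/

namespace Pool.Agent.W_MP_55e385_h66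

variable {V : Type*} (ch : V → Finset V) (lam : ℝ)

/-- Iterates of `φ ↦ min 1 (lam⁻¹ * ∑ children)` starting from `1`. -/
noncomputable def it : ℕ → V → ℝ
  | 0, _ => 1
  | (n + 1), x => min 1 (lam⁻¹ * ∑ y ∈ ch x, it n y)

lemma it_le_one (n : ℕ) (x : V) : it ch lam n x ≤ 1 := by
  cases n with
  | zero => exact le_rfl
  | succ n => exact min_le_left _ _

lemma it_nonneg (hl : 0 < lam) (n : ℕ) (x : V) : 0 ≤ it ch lam n x := by
  induction n generalizing x with
  | zero => exact zero_le_one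
  | succ n ih =>
    exact le_min zero_le_one
      (mul_nonneg (inv_nonneg.mpr hl.le) (Finset.sum_nonneg (fun y _ => ih y)))

lemma it_anti_succ (hl : 0 < lam) (n : ℕ) (x : V) : it ch lam (n + 1) x ≤ it ch lam n x := by
  induction n generalizing x with
  | zero => exact min_le_left _ _
  | succ n ih =>
    exact min_le_min le_rfl (mul_le_mul_of_nonneg_left
      (Finset.sum_le_sum (fun y _ => ih y)) (inv_nonneg.mpr hl.le))

/-- Main estimate. -/
lemma D_le (hl : 0 < lam) (D : ℕ → V → ℝ) (hD0 : ∀ n x, 0 ≤ D n x) (o : V)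
    (h1 : ∀ n x, D (n + 1) x ≤ ∑ y ∈ ch x, D n y) (h2 : ∀ n x, D n x ≤ D n o) (N : ℕ) :
    ∀ m, N ≤ m → ∀ A : ℝ, (∀ k, m - N ≤ k → k ≤ m → D k o ≤ A * lam ^ k) →
      ∀ x, D m x ≤ it ch lam N x * A * lam ^ m := by
  induction N with
  | zero =>
    intro m _ A hA x
    rw [show it ch lam 0 x = 1 from rfl, one_mul]
    exact (h2 m x).trans (hA m (by omega) le_rfl)
  | succ N ih =>
    intro m hm A hA x
    rcases m with _ | m
    · omega
    · by_cases hx : lam⁻¹ * ∑ y ∈ ch x, it ch lam N y ≤ 1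
      · have e : it ch lam (N + 1) x = lam⁻¹ * ∑ y ∈ ch x, it ch lam N y := min_eq_right hx
        rw [e]
        have hstep : ∀ y, D m y ≤ it ch lam N y * A * lam ^ m := by
          intro y
          exact ih m (by omega) A (fun k hk1 hk2 => hA k (by omega) (by omega)) y
        calc D (m + 1) x ≤ ∑ y ∈ ch x, D m y := h1 m x
          _ ≤ ∑ y ∈ ch x, it ch lam N y * A * lam ^ m := Finset.sum_le_sum (fun y _ => hstep y)
          _ = lam⁻¹ * (∑ y ∈ ch x, it ch lam N y) * A * lam ^ (m + 1) := by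
            rw [← Finset.sum_mul, ← Finset.sum_mul, pow_succ]
            field_simp
      · have e : it ch lam (N + 1) x = 1 := min_eq_left (not_le.mp hx).le
        rw [e, one_mul]
        exact (h2 _ x).trans (hA _ (by omega) le_rfl)

/-- The root keeps weight `1`. -/
lemma it_root (hl : 0 < lam) (D : ℕ → V → ℝ) (hD0 : ∀ n x, 0 ≤ D n x) (o : V)
    (h1 : ∀ n x, D (n + 1) x ≤ ∑ y ∈ ch x, D n y) (h2 : ∀ n x, D n x ≤ D n o)
    (h3 : ∀ M r : ℝ, 0 < r → r < 1 → ∃ n, M * (r * lam) ^ n < D n o) (N : ℕ) :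
    it ch lam N o = 1 := by
  rcases N with _ | N
  · rfl
  by_contra hne
  have hx : lam⁻¹ * ∑ y ∈ ch o, it ch lam N y < 1 := by
    by_contra hcon
    exact hne (min_eq_left (not_lt.mp hcon))
  set θ := lam⁻¹ * ∑ y ∈ ch o, it ch lam N y with hθ
  have hθ0 : 0 ≤ θ := mul_nonneg (inv_nonneg.mpr hl.le)
    (Finset.sum_nonneg (fun y _ => it_nonneg ch lam hl N y))
  -- a number `r < 1` with `θ ≤ r ^ (N + 1)`
  obtain ⟨r, hr0, hr1, hr⟩ : ∃ r : ℝ, 0 < r ∧ r < 1 ∧ θ ≤ r ^ (N + 1) := by
    have hcont : Filter.Tendsto (fun t : ℝ => t ^ (N + 1)) (nhdsWithin 1 (Set.Iio 1))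
        (nhds (1 ^ (N + 1))) := ((continuous_pow (N + 1)).tendsto 1).mono_left nhdsWithin_le_nhds
    rw [one_pow] at hcont
    have h1' := hcont.eventually (lt_mem_nhds hx)
    have h2' : ∀ᶠ t : ℝ in nhdsWithin 1 (Set.Iio 1), 0 < t :=
      (lt_mem_nhds (show (0 : ℝ) < 1 from one_pos)).filter_mono nhdsWithin_le_nhds
    have h3' : ∀ᶠ t : ℝ in nhdsWithin 1 (Set.Iio 1), t < 1 := self_mem_nhdsWithin
    obtain ⟨r, hr⟩ := (h1'.and (h2'.and h3')).exists
    exact ⟨r, hr.2.1, hr.2.2, hr.1.le⟩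
  have hrl : 0 < r * lam := mul_pos hr0 hl
  -- a bound for the first generations
  obtain ⟨M, hM0, hM⟩ : ∃ M : ℝ, 0 ≤ M ∧ ∀ k ≤ N, D k o ≤ M * (r * lam) ^ k := by
    refine ⟨∑ k ∈ Finset.range (N + 1), D k o / (r * lam) ^ k,
      Finset.sum_nonneg (fun k _ => div_nonneg (hD0 k o) (pow_pos hrl k).le), ?_⟩
    intro k hk
    have : D k o / (r * lam) ^ k ≤ ∑ k ∈ Finset.range (N + 1), D k o / (r * lam) ^ k :=
      Finset.single_le_sum (f := fun k => D k o / (r * lam) ^ k)
        (fun k _ => div_nonneg (hD0 k o) (pow_pos hrl k).le) (Finset.mem_range.mpr (by omega))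
    exact (div_le_iff₀ (pow_pos hrl k)).mp this
  have hall : ∀ m, D m o ≤ M * (r * lam) ^ m := by
    intro m
    induction m using Nat.strong_induction_on with
    | _ m ih =>
      by_cases hm : m ≤ N
      · exact hM m hm
      · rcases m with _ | m
        · omega
        · have hA : ∀ k, m - N ≤ k → k ≤ m → D k o ≤ (M * r ^ (m - N)) * lam ^ k := by
            intro k hk1 hk2
            have h4 := ih k (by omega)
            rw [mul_pow, ← mul_assoc] at h4
            refine h4.trans (mul_le_mul_of_nonneg_right (mul_le_mul_of_nonneg_left ?_ hM0)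
              (pow_pos hl k).le)
            exact pow_le_pow_of_le_one hr0.le hr1.le hk1
          have hA0 : 0 ≤ M * r ^ (m - N) := mul_nonneg hM0 (pow_pos hr0 _).le
          have hstep : ∀ y, D m y ≤ it ch lam N y * (M * r ^ (m - N)) * lam ^ m := by
            intro y
            exact D_le ch lam hl D hD0 o h1 h2 N m (by omega) _ hA y
          calc D (m + 1) o ≤ ∑ y ∈ ch o, D m y := h1 m o
            _ ≤ ∑ y ∈ ch o, it ch lam N y * (M * r ^ (m - N)) * lam ^ m :=
              Finset.sum_le_sum (fun y _ => hstep y)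
            _ = θ * ((M * r ^ (m - N)) * lam ^ (m + 1)) := by
              rw [← Finset.sum_mul, ← Finset.sum_mul, hθ, pow_succ]
              field_simp
            _ ≤ r ^ (N + 1) * ((M * r ^ (m - N)) * lam ^ (m + 1)) :=
              mul_le_mul_of_nonneg_right hr (mul_nonneg hA0 (pow_pos hl _).le)
            _ = M * (r ^ (N + 1) * r ^ (m - N)) * lam ^ (m + 1) := by ring
            _ = M * (r * lam) ^ (m + 1) := by
              rw [← pow_add, show N + 1 + (m - N) = m + 1 by omega, mul_pow, mul_assoc]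
  obtain ⟨n, hn⟩ := h3 M r hr0 hr1
  exact absurd (hall n) (not_le.mpr hn)

/-- Existence of the weights. -/
theorem exists_weights (hl : 0 < lam) (D : ℕ → V → ℝ) (hD0 : ∀ n x, 0 ≤ D n x) (o : V)
    (h1 : ∀ n x, D (n + 1) x ≤ ∑ y ∈ ch x, D n y) (h2 : ∀ n x, D n x ≤ D n o)
    (h3 : ∀ M r : ℝ, 0 < r → r < 1 → ∃ n, M * (r * lam) ^ n < D n o) :
    ∃ φ : V → ℝ, (∀ x, 0 ≤ φ x) ∧ (∀ x, φ x ≤ 1) ∧ φ o = 1 ∧
      ∀ x, lam * φ x ≤ ∑ y ∈ ch x, φ y := by
  have hanti : ∀ x, Antitone (fun n => it ch lam n x) := fun x =>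
    antitone_nat_of_succ_le (fun n => it_anti_succ ch lam hl n x)
  have hbdd : ∀ x, BddBelow (Set.range fun n => it ch lam n x) := fun x =>
    ⟨0, by rintro _ ⟨n, rfl⟩; exact it_nonneg ch lam hl n x⟩
  have hlim : ∀ x, Filter.Tendsto (fun n => it ch lam n x) Filter.atTop
      (nhds (⨅ n, it ch lam n x)) := fun x => tendsto_atTop_ciInf (hanti x) (hbdd x)
  refine ⟨fun x => ⨅ n, it ch lam n x, fun x => ?_, fun x => ?_, ?_, fun x => ?_⟩
  · exact ge_of_tendsto' (hlim x) (fun n => it_nonneg ch lam hl n x)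
  · exact le_of_tendsto' (hlim x) (fun n => it_le_one ch lam n x)
  · have : ∀ n, it ch lam n o = 1 := it_root ch lam hl D hD0 o h1 h2 h3
    simp only [this, ciInf_const]
  · have hsum : Filter.Tendsto (fun n => ∑ y ∈ ch x, it ch lam n y) Filter.atTop
        (nhds (∑ y ∈ ch x, ⨅ n, it ch lam n y)) :=
      tendsto_finsetSum _ (fun y _ => hlim y)
    have hleft : Filter.Tendsto (fun n => lam * it ch lam (n + 1) x) Filter.atTop
        (nhds (lam * ⨅ n, it ch lam n x)) :=
      ((hlim x).comp (Filter.tendsto_add_atTop_nat 1)).const_mul lam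
    refine le_of_tendsto_of_tendsto' hleft hsum (fun n => ?_)
    have h : it ch lam (n + 1) x ≤ lam⁻¹ * ∑ y ∈ ch x, it ch lam n y := min_le_right _ _
    calc lam * it ch lam (n + 1) x ≤ lam * (lam⁻¹ * ∑ y ∈ ch x, it ch lam n y) :=
          mul_le_mul_of_nonneg_left h hl.le
      _ = _ := by rw [← mul_assoc, mul_inv_cancel₀ hl.ne', one_mul]

end Pool.Agent.W_MP_55e385_h66
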